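import Mathlib
import Pool.Agent.S08001

set_option autoImplicit false

namespace Pool.Agent.Results.MP_a7fafd_co.SixPatternsAvoidable

/-- The word `w` encounters the pattern `p` in the abelian sense: some factor of `w` is a
concatenation `u_1 ⋯ u_m` (`m` the length of `p`) of nonempty words such that `u_i` and `u_j` are
permutations of each other whenever `p_i = p_j`. -/
def Encounters {α : Type} (p : List ℕ) (w : List α) : Prop :=
  ∃ v : List α, v <:+: w ∧ ∃ u : Fin p.length → List α, (∀ i, u i ≠ []) ∧
    (List.ofFn u).flatten = v ∧ ∀ i j, p.get i = p.get j → (u i).Perm (u j)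

/-- The pattern `p` is avoidable in the abelian sense: over some finite alphabet there is an
infinite word none of whose prefixes (hence none of whose factors) encounters `p`. -/
def AbelianAvoidable (p : List ℕ) : Prop :=
  ∃ k : ℕ, ∃ x : ℕ → Fin k, ∀ n : ℕ, ¬ Encounters p ((List.range n).map x)

/-- the six patterns -/
def patterns : List (List ℕ) :=
  [[0,1,0,2,0,3,1,2], [0,1,0,2,0,3,2,1], [0,1,0,2,1,3,0,3], [0,1,0,2,3,0,3,1],
    [0,1,0,2,0,3,0,1,3], [0,1,0,2,1,3,0,2,0]]

/-! ### A search for abelian occurrences in a fixed word -/

def code (a : ℕ) : ℕ := 32 ^ a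

def cs (u : List ℕ) : ℕ := (u.map code).sum

theorem cs_append (u v : List ℕ) : cs (u ++ v) = cs u + cs v := by
  unfold cs
  rw [List.map_append, List.sum_append]

theorem cs_perm {u v : List ℕ} (h : u.Perm v) : cs u = cs v := (h.map code).sum_eq

def srch (PS : ℕ → ℕ) (N : ℕ) : List ℕ → List (ℕ × ℕ) → ℕ → Bool
  | [], _, _ => true
  | v :: ps, asg, pos => (List.range (N + 1)).any fun e => decide (pos < e) &&
      (match asg.lookup v with
        | none => srch PS N ps ((v, PS e - PS pos) :: asg) e
        | some c => (PS e - PS pos == c) && srch PS N ps asg e)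

theorem sound (Z : List ℕ) (PS : ℕ → ℕ) (hPS : ∀ t, t ≤ Z.length → PS t = cs (Z.take t)) :
    ∀ (ps : List ℕ) (L : List (List ℕ)) (A B : List ℕ) (asg : List (ℕ × ℕ)),
      ps.length = L.length → (∀ u ∈ L, u ≠ []) → Z = A ++ L.flatten ++ B →
      (∀ x ∈ ps.zip L, ∀ y ∈ ps.zip L, x.1 = y.1 → cs x.2 = cs y.2) →
      (∀ x ∈ ps.zip L, ∀ c, asg.lookup x.1 = some c → cs x.2 = c) →
      srch PS Z.length ps asg A.length = true := by
  intro ps
  induction ps with
  | nil => intros; rfl
  | cons v ps ih =>
    intro L A B asg hlen hne hZ hcomp hasg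
    rcases L with _ | ⟨u, L⟩
    · simp at hlen
    have hu : u ≠ [] := hne u (by simp)
    have hup : 0 < u.length := List.length_pos_of_ne_nil hu
    have hZ2 : Z = (A ++ u) ++ L.flatten ++ B := by
      rw [hZ]
      simp only [List.flatten_cons, List.append_assoc]
    have hlenZ : A.length + u.length ≤ Z.length := by
      rw [hZ2]
      simp only [List.length_append]
      omega
    have e1 : PS A.length = cs A := by
      rw [hPS _ (by omega)]
      congr 1
      rw [hZ, List.append_assoc, List.take_left]
    have e2 : PS (A.length + u.length) = cs A + cs u := by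
      rw [hPS _ hlenZ, ← cs_append]
      congr 1
      rw [hZ2, List.append_assoc, ← List.length_append, List.take_left]
    have e3 : PS (A.length + u.length) - PS A.length = cs u := by omega
    have hlen' : ps.length = L.length := by simpa using hlen
    have hne' : ∀ u ∈ L, u ≠ [] := fun x hx => hne x (by simp [hx])
    have hcomp' : ∀ x ∈ ps.zip L, ∀ y ∈ ps.zip L, x.1 = y.1 → cs x.2 = cs y.2 := by
      intro x hx y hy
      exact hcomp x (by rw [List.zip_cons_cons]; exact List.mem_cons_of_mem _ hx) y
        (by rw [List.zip_cons_cons]; exact List.mem_cons_of_mem _ hy)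
    have hlA : A.length + u.length = (A ++ u).length := by rw [List.length_append]
    unfold srch
    rw [List.any_eq_true]
    refine ⟨A.length + u.length, List.mem_range.2 (by omega), ?_⟩
    rw [Bool.and_eq_true]
    refine ⟨decide_eq_true (by omega), ?_⟩
    cases hl : asg.lookup v with
    | none =>
      show srch PS Z.length ps ((v, PS (A.length + u.length) - PS A.length) :: asg)
        (A.length + u.length) = true
      rw [e3, hlA]
      apply ih L (A ++ u) B _ hlen' hne' hZ2 hcomp'
      intro x hx c hc
      rw [List.lookup_cons] at hc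
      by_cases hxv : x.1 = v
      · have h1 := hcomp x (by rw [List.zip_cons_cons]; exact List.mem_cons_of_mem _ hx) (v, u)
          (by rw [List.zip_cons_cons]; exact List.mem_cons_self) hxv
        rw [show (x.1 == v) = true from by simpa using hxv] at hc
        rw [h1]
        exact Option.some.inj hc
      · rw [show (x.1 == v) = false from by simpa using hxv] at hc
        exact hasg x (by rw [List.zip_cons_cons]; exact List.mem_cons_of_mem _ hx) c hc
    | some c =>
      show ((PS (A.length + u.length) - PS A.length == c) &&
        srch PS Z.length ps asg (A.length + u.length)) = true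
      rw [e3, hlA, Bool.and_eq_true]
      constructor
      · have h1 := hasg (v, u) (by rw [List.zip_cons_cons]; exact List.mem_cons_self) c hl
        simpa using h1
      · apply ih L (A ++ u) B asg hlen' hne' hZ2 hcomp'
        intro x hx c hc
        exact hasg x (by rw [List.zip_cons_cons]; exact List.mem_cons_of_mem _ hx) c hc

/-- The Zimin word `Z_4`. -/
def Z4 : List ℕ := [1,2,1,3,1,2,1,4,1,2,1,3,1,2,1]

def tab : List ℕ := (List.range 16).map fun t => cs (Z4.take t)

def PS4 (t : ℕ) : ℕ :=
  [0, 32, 1056, 1088, 33856, 33888, 34912, 34944, 1083520, 1083552, 1084576, 1084608, 1117376,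
    1117408, 1118432, 1118464].getD t 0

theorem PS4_spec : ∀ t, t ≤ Z4.length → PS4 t = cs (Z4.take t) := by
  intro t ht
  have h : ∀ t ∈ List.range 16, PS4 t = cs (Z4.take t) := by decide
  exact h t (List.mem_range.2 (by simp [Z4] at ht; omega))

theorem none_found : ∀ p ∈ patterns, ∀ s ∈ List.range 16, srch PS4 15 p [] s = false := by
  decide +kernel

theorem free (p : List ℕ) (hp : p ∈ patterns) (w : List ℕ) (hw : w <:+: Z4)
    (f : Fin p.length → List ℕ) (hne : ∀ t, f t ≠ []) (hflat : (List.ofFn f).flatten = w)
    (hperm : ∀ a b : Fin p.length, p.get a = p.get b → (f a).Perm (f b)) : False := by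
  obtain ⟨A, B, hAB⟩ := hw
  have hmem : ∀ x ∈ p.zip (List.ofFn f), ∃ i : Fin p.length, x = (p.get i, f i) := by
    intro x hx
    obtain ⟨i, hi, rfl⟩ := List.mem_iff_getElem.1 hx
    rw [List.length_zip, List.length_ofFn, min_self] at hi
    refine ⟨⟨i, hi⟩, ?_⟩
    rw [List.getElem_zip, List.getElem_ofFn]
    rfl
  have hlt : A.length < 16 := by
    have := congrArg List.length hAB
    simp only [List.length_append] at this
    have h2 : Z4.length = 15 := rfl
    omega
  have h1 := sound Z4 PS4 PS4_spec p (List.ofFn f) A B [] (by simp) (by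
      intro u hu
      rw [List.mem_ofFn] at hu
      obtain ⟨i, rfl⟩ := hu
      exact hne i) (by rw [hflat, hAB]) (by
      intro x hx y hy hxy
      obtain ⟨i, rfl⟩ := hmem x hx
      obtain ⟨j, rfl⟩ := hmem y hy
      exact cs_perm (hperm i j hxy)) (by
      intro x _ c hc
      simp at hc)
  have h2 := none_found p hp A.length (List.mem_range.2 hlt)
  have h3 : Z4.length = 15 := rfl
  rw [h3, h2] at h1
  exact Bool.false_ne_true h1

/-- All six patterns are avoidable in the abelian sense. -/
theorem result : ∀ p ∈ patterns, AbelianAvoidable p := by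
  intro p hp
  have hcard : p.toFinset.card = 4 := by
    revert p
    decide
  obtain ⟨k, x, hx⟩ := Pool.Agent.S08001.avoid p (by
    rintro ⟨w, hw, f, hne, hflat, hperm⟩
    rw [hcard] at hw
    exact free p hp w hw f hne hflat hperm)
  refine ⟨k, x, ?_⟩
  rintro n ⟨v, ⟨A, B, hAB⟩, u, hne, hflat, hperm⟩
  apply hx A.length v.length
  refine ⟨u, hne, ?_, hperm⟩
  rw [hflat]
  have hlen := congrArg List.length hAB
  simp only [List.length_append, List.length_map, List.length_range] at hlen
  apply List.ext_getElem
  · simp
  · intro i h1 h2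
    rw [List.getElem_map, List.getElem_range]
    have h3 : A.length + i < (A ++ v ++ B).length := by
      simp only [List.length_append]; omega
    have h4 : (A ++ v ++ B)[A.length + i] = v[i] := by
      rw [List.getElem_append_left (by rw [List.length_append]; omega),
        List.getElem_append_right (by omega)]
      congr 1
      omega
    rw [← h4]
    have h5 : (A ++ v ++ B)[A.length + i] = ((List.range n).map x)[A.length + i]'(by
        rw [List.length_map, List.length_range]; omega) := by
      congr 1
    rw [h5, List.getElem_map, List.getElem_range]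

end Pool.Agent.Results.MP_a7fafd_co.SixPatternsAvoidable
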